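import Mathlib

namespace Pool.Agent.Results.MP_2bef4d_nt.Inf

def Abcd (n : ℕ) : Prop := ∃ a b c d : ℕ, 0 < a ∧ 0 < b ∧ 0 < c ∧ 0 < d ∧
  (n : ℚ) = ((a : ℚ) / b + (b : ℚ) / a) * ((c : ℚ) / d + (d : ℚ) / c)

def IntForm (n : ℕ) : Prop := ∃ a b : ℕ, 0 < a ∧ 0 < b ∧
  (n : ℚ) = ((a : ℚ) + (a : ℚ)⁻¹) * ((b : ℚ) + (b : ℚ)⁻¹)

theorem vieta (k : ℤ) (s : ℕ) : ∀ a b : ℤ, 0 < a → a ≤ b → a + b ≤ s →
    a ^ 2 + b ^ 2 + 1 = k * a * b → k = 3 := by
  induction s with
  | zero => intro a b ha hb hs; push_cast at hs; omega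
  | succ s ih =>
    intro a b ha hb hs h
    rcases hb.eq_or_lt with rfl | hb
    · have : a = 1 := Int.eq_one_of_mul_eq_one_right ha.le (b := (k - 2) * a) (by linarith)
      subst this
      omega
    · have e : b * (k * a - b) = a ^ 2 + 1 := by linarith
      have h0 : 0 < k * a - b := by
        by_contra hn
        nlinarith
      have h1 : k * a - b ≤ a := by
        by_contra hn
        nlinarith
      exact ih (k * a - b) a h0 h1 (by push_cast at hs; omega) (by linarith)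

theorem sq {n : ℕ} (h : IntForm n) : ∃ x : ℤ, (n : ℤ) = x ^ 2 + 4 := by
  obtain ⟨a, b, ha, hb, h⟩ := h
  have h1 : (n : ℚ) * (a * b) = (a ^ 2 + 1) * (b ^ 2 + 1) := by
    rw [h]
    field_simp
  have h2 : (n : ℤ) * (a * b) = (a ^ 2 + 1) * (b ^ 2 + 1) := by exact_mod_cast h1
  have ha' : (0 : ℤ) < a := by exact_mod_cast ha
  have hb' : (0 : ℤ) < b := by exact_mod_cast hb
  have k3 : (n : ℤ) - a * b = 3 := by
    rcases le_total (a : ℤ) b with l | l
    · exact vieta _ (a + b) a b ha' l (by simp) (by linarith)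
    · exact vieta _ (a + b) b a hb' l (by simp [add_comm]) (by linarith)
  refine ⟨a - b, ?_⟩
  rw [show (n : ℤ) = a * b + 3 by linarith] at h2 ⊢
  linarith

def tab (k : ℕ) : ZMod 19 := ![1, 1, 2, 17, 18, 18, 17, 2] (Fin.ofNat 8 k)

theorem tab_step (k : ℕ) (e : ZMod 19) (h : tab k * e = tab (k + 1) ^ 4 + 1) : e = tab (k + 2) := by
  have : ∀ (i : Fin 8) (e : ZMod 19), tab i * e = tab (i + 1) ^ 4 + 1 → e = tab (i + 2) := by
    decide +kernel
  have t (j : ℕ) : tab (k % 8 + j) = tab (k + j) := by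
    unfold tab
    congr 1
    exact Fin.ext (by simp)
  have := this ⟨k % 8, Nat.mod_lt _ (by norm_num)⟩ e
  simp only [t] at this
  exact this ((t 0).symm ▸ h)

theorem seq (k : ℕ) : ∃ c d m : ℤ, 0 < c ∧ c ≤ d ∧ k ≤ d ∧ c ^ 4 + d ^ 4 + 1 = m * c * d ∧
    (c : ZMod 19) = tab k ∧ (d : ZMod 19) = tab (k + 1) := by
  induction k with
  | zero => exact ⟨1, 1, 3, by decide, by decide, by decide, by decide, by decide, by decide⟩
  | succ k ih =>
    obtain ⟨c, d, m, h0, h1, h2, h3, h4, h5⟩ := ih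
    have e : c * (m * d - c ^ 3) = d ^ 4 + 1 := by linarith
    have hd : d ≤ d ^ 3 := by nlinarith [mul_pos h0 h0, sq_nonneg (d - 1), sq_nonneg d]
    have lt : d < m * d - c ^ 3 := by
      by_contra hn
      nlinarith
    refine ⟨d, m * d - c ^ 3, c * (1 - c ^ 4) * (m * c - d ^ 3) + m ^ 3 * d ^ 2 -
      3 * m ^ 2 * d * c ^ 3 + 3 * m * c ^ 6, by omega, lt.le, by push_cast; omega, ?_, h5, ?_⟩
    · linear_combination (-1 - c * (1 - c ^ 4) * (m * d - c ^ 3)) * h3 * (-1)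
    · apply tab_step
      rw [← h4, ← h5]
      exact_mod_cast congrArg (Int.cast : ℤ → ZMod 19) e

theorem result : {n : ℕ | 0 < n ∧ Abcd n ∧ ¬ IntForm n}.Infinite := by
  refine Set.infinite_of_forall_exists_gt fun N => ?_
  obtain ⟨c, d, m, h0, h1, h2, h3, h4, h5⟩ := seq (8 * N + 2)
  have t2 : tab (8 * N + 2) = 2 := by
    unfold tab
    rw [show Fin.ofNat 8 (8 * N + 2) = 2 from Fin.ext (by simp)]
    rfl
  have t3 : tab (8 * N + 2 + 1) = 17 := by
    unfold tab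
    rw [show Fin.ofNat 8 (8 * N + 2 + 1) = 3 from Fin.ext (by simp [add_assoc])]
    rfl
  have hm : 0 < m := by
    by_contra hn
    nlinarith [mul_pos h0 (h0.trans_le h1), sq_nonneg (c ^ 2), sq_nonneg (d ^ 2)]
  obtain ⟨c, rfl⟩ := Int.eq_ofNat_of_zero_le h0.le
  obtain ⟨d, rfl⟩ := Int.eq_ofNat_of_zero_le (h0.le.trans h1)
  obtain ⟨m, rfl⟩ := Int.eq_ofNat_of_zero_le hm.le
  have hc : 0 < c := by omega
  have hd : 0 < d := by omega
  have hN : N < m + 2 * c * d := by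
    have : 8 * N + 2 ≤ d := by omega
    nlinarith
  refine ⟨m + 2 * c * d, ⟨by omega, ⟨c ^ 2 + d ^ 2, 1, c, d, by positivity, one_pos, hc, hd, ?_⟩,
    fun h => ?_⟩, hN⟩
  · have : (c : ℚ) ^ 4 + d ^ 4 + 1 = m * c * d := by exact_mod_cast h3
    push_cast
    field_simp
    linear_combination (-1 : ℚ) * this
  · obtain ⟨x, hx⟩ := sq h
    have a1 := congrArg (Int.cast : ℤ → ZMod 19) hx
    have a2 := congrArg (Int.cast : ℤ → ZMod 19) h3
    rw [t2] at h4
    rw [t3] at h5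
    push_cast at a1 a2 h4 h5
    rw [h4, h5] at a1 a2
    revert a1 a2
    generalize (m : ZMod 19) = u
    generalize (x : ZMod 19) = v
    revert u v
    decide +kernel

end Pool.Agent.Results.MP_2bef4d_nt.Inf
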